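import Pool.Agent.Y198.DC.Stm2

/-!
# DD-FIN: modules supported at the maximal ideal (helper484)
-/

universe u v

open CategoryTheory IsLocalRing TensorProduct Pointwise

namespace Pool.Agent.Y484.DC

open H503R3.CC Pool.Agent.Y198.DC

theorem cm_of_max {R : Type u} [CommRing R] [IsLocalRing R] [IsNoetherianRing R] {d : ℕ}
    (hd : ringKrullDim R = (d : WithBot ℕ∞)) (N : Type v) [AddCommGroup N] [Module R N]
    [Module.Finite R N] [Nontrivial N]
    (h : ∀ p ∈ Module.support R N, p.asIdeal = maximalIdeal R) : IsCMOfCodim R N d := by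
  refine ⟨inferInstance, ?_, ?_⟩
  · have h1 := supportDim_eq_zero_of h
    have h2 := depth_le_supportDim (R := R) (N := N)
    rw [h1] at h2 ⊢
    have h3 : depth R N = 0 := by
      have h4 : ((depth R N : ℕ∞) : WithBot ℕ∞) ≤ ((0 : ℕ∞) : WithBot ℕ∞) := h2
      exact le_antisymm (WithBot.coe_le_coe.mp h4) bot_le
    rw [h3]
    rfl
  · have h1 : (maximalIdeal R).height = (d : ℕ∞) := by
      have h2 := IsLocalRing.maximalIdeal_height_eq_ringKrullDim (R := R)
      rw [hd] at h2
      exact_mod_cast h2
    have hne : Nonempty (Module.support R N) := Module.nonempty_support_of_nontrivial.to_subtype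
    unfold codim
    rw [← h1]
    apply le_antisymm
    · obtain ⟨p⟩ := hne
      refine (iInf_le _ p).trans ?_
      rw [h p.1 p.2]
    · refine le_iInf fun p => ?_
      rw [h p.1 p.2]

theorem tensor_nontrivial {R : Type u} [CommRing R] [IsLocalRing R] (M N : Type v)
    [AddCommGroup M] [Module R M] [Module.Finite R M] [Nontrivial M]
    [AddCommGroup N] [Module R N] [Module.Finite R N] [Nontrivial N] :
    Nontrivial (M ⊗[R] N) := by
  obtain ⟨I, φ, hI, hφ⟩ := Module.exists_surjective_quotient_of_finite R M
  have hI' : I ≤ maximalIdeal R := IsLocalRing.le_maximalIdeal hI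
  have hker : I ≤ LinearMap.ker (Algebra.linearMap R (ResidueField R)) := by
    intro x hx
    rw [LinearMap.mem_ker, Algebra.linearMap_apply]
    exact (IsLocalRing.residue_eq_zero_iff x).2 (hI' hx)
  let ψ : M →ₗ[R] ResidueField R :=
    (Submodule.liftQ I (Algebra.linearMap R (ResidueField R)) hker).comp φ
  have hψ : Function.Surjective ψ := by
    intro y
    obtain ⟨r, rfl⟩ := IsLocalRing.residue_surjective y
    obtain ⟨m, hm⟩ := hφ (Ideal.Quotient.mk I r)
    refine ⟨m, ?_⟩
    change (Submodule.liftQ I (Algebra.linearMap R (ResidueField R)) hker) (φ m) = _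
    rw [hm]
    rfl
  have hk : Nontrivial (ResidueField R ⊗[R] N) := by
    rw [← not_subsingleton_iff_nontrivial, IsLocalRing.subsingleton_tensorProduct,
      not_subsingleton_iff_nontrivial]
    infer_instance
  exact (LinearMap.rTensor_surjective N hψ).nontrivial

theorem t : S_FIN := by
  intro R _ _ _ d hd ys hlen hmem hreg M _ _ _ _ hM
  have hlt : ∀ i < d, Subsingleton (Abelian.Ext (ModuleCat.of R M) (ModuleCat.of R R) i) := by
    intro i hi
    refine ModuleCat.subsingleton_ext_of_exists_isRegular (maximalIdeal R)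
      (ModuleCat.of R M) ?_ (ModuleCat.of R R) (Data.smul_lt_top _ le_rfl) ys hmem hreg i (by omega)
    intro p hp
    rw [PrimeSpectrum.mem_zeroLocus, hM p hp]
  have hnt : Nontrivial (Abelian.Ext (ModuleCat.of R M) (ModuleCat.of R R) d) := by
    rw [← not_subsingleton_iff_nontrivial]
    intro hsub
    obtain ⟨rs, hlen', hmem', hreg'⟩ := ModuleCat.exists_isRegular_of_exists_subsingleton_ext
      (maximalIdeal R) (d + 1) (ModuleCat.of R R) (Data.smul_lt_top _ le_rfl)
      (ModuleCat.of R M)
      (by
        change Module.support R M = _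
        ext p
        rw [PrimeSpectrum.mem_zeroLocus]
        constructor
        · intro hp
          rw [hM p hp]
        · intro hp
          have h1 : p.asIdeal = maximalIdeal R :=
            le_antisymm (IsLocalRing.le_maximalIdeal p.2.ne_top) hp
          have h2 : p = IsLocalRing.closedPoint R := PrimeSpectrum.ext h1
          rw [h2]
          exact IsLocalRing.closedPoint_mem_support R M)
      (by
        intro i hi
        rcases Nat.lt_succ_iff_lt_or_eq.mp hi with h1 | h1
        · exact hlt i h1
        · subst h1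
          exact hsub)
    have h1 := ringKrullDim_add_length_eq_ringKrullDim_of_isRegular rs hreg'
    rw [hd, hlen'] at h1
    have hle : Ideal.ofList rs ≤ maximalIdeal R := Ideal.span_le.mpr hmem'
    have hne : Ideal.ofList rs ≠ ⊤ := fun h =>
      (maximalIdeal.isMaximal R).ne_top (top_le_iff.1 (h ▸ hle))
    have hnq : Nontrivial (R ⧸ Ideal.ofList rs) := Ideal.Quotient.nontrivial_iff.2 hne
    have h2 : (0 : WithBot ℕ∞) ≤ ringKrullDim (R ⧸ Ideal.ofList rs) := ringKrullDim_nonneg_of_nontrivial
    have h3 : (0 : WithBot ℕ∞) + ((d + 1 : ℕ) : WithBot ℕ∞) ≤ (d : WithBot ℕ∞) := by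
      rw [← h1]
      gcongr
    have h4 : 0 + (d + 1) ≤ d := by exact_mod_cast h3
    omega
  have hfin : Module.Finite R (Abelian.Ext (ModuleCat.of R M) (ModuleCat.of R R) d) := inferInstance
  have htn : Nontrivial (M ⊗[R] Abelian.Ext (ModuleCat.of R M) (ModuleCat.of R R) d) :=
    tensor_nontrivial M _
  refine ⟨cm_of_max hd M hM, cm_of_max hd _ ?_⟩
  intro p hp
  apply hM
  rw [Module.mem_support_iff_of_finite] at hp ⊢
  refine le_trans ?_ hp
  intro r hr
  rw [Module.mem_annihilator] at hr ⊢
  intro x
  induction x using TensorProduct.induction_on with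
  | zero => rw [smul_zero]
  | tmul m e => rw [TensorProduct.smul_tmul', hr, TensorProduct.zero_tmul]
  | add x y hx hy => rw [smul_add, hx, hy, add_zero]

end Pool.Agent.Y484.DC
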